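import Pool.Agent.helper21.GR.Main

/-!
# Gallai-Ramsey numbers of complete graphs, up to a constant factor per colour

There is an absolute constant `C` such that for all `k ≥ 1` and `t ≥ 3`
`GR_k(K_t) - 1 ≤ (C (R_2(K_t) - 1)) ^ (k / 2)`.

Idea of the proof.  Put `m = t - 1`, `ρ = R_2(K_t) - 1`.  We use a weight `w` with `w 1 = 1`, growing
like `64 ^ a` until it reaches about `sqrt (C ρ)` and polynomially from there on.  The key inequality:
in a two-coloured complete graph whose vertices carry weights `(x_v, y_v)` such that red cliques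
have `x`-weight at most `a ≤ m` and blue cliques `y`-weight at most `b ≤ m`,
`∑ w(x_v) w(y_v) ≤ w(a) w(b)`.  Contracting homogeneous sets (Gallai) this gives
`n ≤ w(m) ^ k` for every Gallai colouring of `K_n` without monochromatic `K_t`.
-/

set_option autoImplicit false

namespace Pool.Agent.Results.MP_89787e_co.ConstantFactor

open Pool.Agent.helper21.GR

/-- `R_2(K_t)`: the least `n` such that every two-colouring of the edges of `K_n` contains a
monochromatic `K_t`. -/
noncomputable def ramsey (t : ℕ) : ℕ :=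
  sInf {n : ℕ | ∀ f : Fin n → Fin n → Fin 2, (∀ a b : Fin n, f a b = f b a) →
    ∃ S : Finset (Fin n), S.card = t ∧ ∃ i : Fin 2, ∀ x ∈ S, ∀ y ∈ S, x ≠ y → f x y = i}

/-- The set of all `n` such that every `k`-colouring of the edges of `K_n` without rainbow triangle
contains a monochromatic `K_t`. -/
def gallaiSet (k t : ℕ) : Set ℕ :=
  {n : ℕ | ∀ f : Fin n → Fin n → Fin k, (∀ a b : Fin n, f a b = f b a) →
    (∀ a b c : Fin n, a ≠ b → b ≠ c → a ≠ c → f a b = f b c ∨ f b c = f a c ∨ f a b = f a c) →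
    ∃ S : Finset (Fin n), S.card = t ∧ ∃ i : Fin k, ∀ x ∈ S, ∀ y ∈ S, x ≠ y → f x y = i}

/-- `GR_k(K_t)`: the least element of `gallaiSet k t`. -/
noncomputable def gallaiRamsey (k t : ℕ) : ℕ := sInf (gallaiSet k t)

/-- There is an absolute constant `C` such that for all `k ≥ 1` and `t ≥ 3` the Gallai-Ramsey number
exists and `GR_k(K_t) - 1 ≤ (C (R_2(K_t) - 1)) ^ (k / 2)`. -/
theorem result : ∃ C : ℝ, ∀ k t : ℕ, 1 ≤ k → 3 ≤ t →
    (gallaiSet k t).Nonempty ∧
    (gallaiRamsey k t : ℝ) - 1 ≤ (C * ((ramsey t : ℝ) - 1)) ^ ((k : ℝ) / 2) := by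
  refine ⟨Cst, fun k t hk ht => ?_⟩
  have hρ := one_le_rho ht
  have hR : ((sInf (RSet t) - 1 : ℕ) : ℝ) = (ramsey t : ℝ) - 1 := by
    have : 1 ≤ sInf (RSet t) := by
      by_contra hcon
      have h0 : sInf (RSet t) - 1 = 0 := by omega
      rw [h0] at hρ
      norm_num at hρ
    rw [Nat.cast_sub this]
    simp only [ramsey, RSet, Nat.cast_one]
  have hC : 0 ≤ Cst := by
    unfold Cst
    positivity
  set x : ℝ := (Cst * ((ramsey t : ℝ) - 1)) ^ ((k : ℝ) / 2) with hx
  have hb : 0 ≤ Cst * ((ramsey t : ℝ) - 1) := by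
    apply mul_nonneg hC
    rw [← hR]
    positivity
  have hx0 : 0 ≤ x := Real.rpow_nonneg hb _
  have hx2 : x ^ 2 = (Cst * ((ramsey t : ℝ) - 1)) ^ k := by
    rw [hx, ← Real.rpow_natCast _ 2, ← Real.rpow_mul hb, Nat.cast_ofNat,
      div_mul_cancel₀ _ (two_ne_zero), Real.rpow_natCast]
  have hmem : ⌊x⌋₊ + 1 ∈ gallaiSet k t := by
    intro f hf hg
    by_contra hno
    have h1 := main_sq hk ht f hf hg hno
    rw [hR, ← hx2] at h1
    have h2 := le_of_sq_le_sq h1 hx0
    have h3 := Nat.lt_floor_add_one x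
    push_cast at h2
    linarith
  refine ⟨⟨_, hmem⟩, ?_⟩
  have h1 : gallaiRamsey k t ≤ ⌊x⌋₊ + 1 := Nat.sInf_le hmem
  have h2 : (gallaiRamsey k t : ℝ) ≤ ⌊x⌋₊ + 1 := by exact_mod_cast h1
  have h3 := Nat.floor_le hx0
  linarith

end Pool.Agent.Results.MP_89787e_co.ConstantFactor
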