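import Pool.Agent.helper67.GV.Asm

/-!
# The growth rate of the Gallai-Ramsey numbers of a complete graph

Let `t ≥ 3`, `T = t - 1`, `R = R_2(K_t)`. A weight function is a function `g : {1, ..., T} → ℝ` with `g 1 = 1` such
that in every two-coloured complete graph whose vertices `v` carry weights `a v, b v ≥ 1` such that the cliques of the first
colour have total `a`-weight at most `A ≤ T` and the cliques of the second colour total `b`-weight at most `B ≤ T`:
`∑ g (a v) g (b v) ≤ g A g B`.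

The theorem: `GR_k(K_t) - 1 ≤ g T ^ k` for every weight function, and `(GR_k(K_t) - 1) ^ (1/k)` converges to `g T` for
some weight function, so to the minimum of `g T`; the formula of Fox, Grinshpun and Pach holds for all even `k` if and
only if there is a weight function with `g T ^ 2 = R - 1`; otherwise it fails for all large `k` by an exponential factor.

Idea of the proof of the lower bound. Let `F x` be the largest size of a Gallai colouring with `x a` colours of clique
number at most `a` (for each `a`). Substitution gives `∑ F (x + e_(a v) + e_(b v)) ≤ F (x + e_A + e_B)`, and one more colour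
costs at most a constant factor. The averages of `log F (x + e_a) - log F x` over long boxes have a limit point, and by
convexity the exponentials of the limits form a weight function.
-/

set_option autoImplicit false

open Filter Topology

namespace Pool.Agent.Results.MP_89787e_co.GrowthRate

/-- `R_2(K_t)`: the least `n` such that every two-colouring of the edges of `K_n` contains a
monochromatic `K_t`. -/
noncomputable def ramsey (t : ℕ) : ℕ :=
  sInf {n : ℕ | ∀ f : Fin n → Fin n → Fin 2, (∀ a b : Fin n, f a b = f b a) →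
    ∃ S : Finset (Fin n), S.card = t ∧ ∃ i : Fin 2, ∀ x ∈ S, ∀ y ∈ S, x ≠ y → f x y = i}

/-- The set of all `n` such that every `k`-colouring of the edges of `K_n` without rainbow triangle
contains a monochromatic `K_t`. -/
def gallaiSet (k t : ℕ) : Set ℕ :=
  {n : ℕ | ∀ f : Fin n → Fin n → Fin k, (∀ a b : Fin n, f a b = f b a) →
    (∀ a b c : Fin n, a ≠ b → b ≠ c → a ≠ c → f a b = f b c ∨ f b c = f a c ∨ f a b = f a c) →
    ∃ S : Finset (Fin n), S.card = t ∧ ∃ i : Fin k, ∀ x ∈ S, ∀ y ∈ S, x ≠ y → f x y = i}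

/-- `GR_k(K_t)`: the least element of `gallaiSet k t`. -/
noncomputable def gallaiRamsey (k t : ℕ) : ℕ := sInf (gallaiSet k t)

/-- The value in the conjecture of Fox, Grinshpun and Pach. -/
noncomputable def fgpValue (k t : ℕ) : ℕ :=
  if Even k then (ramsey t - 1) ^ (k / 2) + 1 else (t - 1) * (ramsey t - 1) ^ ((k - 1) / 2) + 1

/-- Weight functions: `g 1 = 1`, and for every complete graph on `n > 0` vertices, two-coloured by `r` and `¬ r`, with weights
`a v, b v ≥ 1` such that the cliques of `r` have total `a`-weight at most `A ≤ T` and the cliques of `¬ r` have total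
`b`-weight at most `B ≤ T`, the sum of the `g (a v) * g (b v)` is at most `g A * g B`. (Only `g 1, ..., g T` matter.) -/
def IsWeight (T : ℕ) (g : ℕ → ℝ) : Prop :=
  g 1 = 1 ∧ ∀ (n : ℕ) (r : Fin n → Fin n → Prop) (a b : Fin n → ℕ) (A B : ℕ), 0 < n →
    (∀ u v, r u v → r v u) → (∀ v, 1 ≤ a v ∧ 1 ≤ b v) → A ≤ T → B ≤ T →
    (∀ Q : Finset (Fin n), (∀ u ∈ Q, ∀ v ∈ Q, u ≠ v → r u v) → ∑ v ∈ Q, a v ≤ A) →
    (∀ Q : Finset (Fin n), (∀ u ∈ Q, ∀ v ∈ Q, u ≠ v → ¬ r u v) → ∑ v ∈ Q, b v ≤ B) →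
    ∑ v, g (a v) * g (b v) ≤ g A * g B

open Pool.Agent.helper67.GV in
theorem gr_eq {k t : ℕ} (ht : 3 ≤ t) (hk : 1 ≤ k) : (gallaiSet k t).Nonempty ∧
    gallaiRamsey k t = Fm (Multiset.replicate k (t - 1)) + 1 := by
  obtain ⟨T, rfl⟩ : ∃ T, t = T + 1 := ⟨t - 1, by omega⟩
  obtain ⟨h1, h2, -⟩ := Asm_GRC T k (by omega) hk
  exact ⟨h1, h2⟩

open Pool.Agent.helper67.GV in
theorem ramsey_eq {t : ℕ} (ht : 3 ≤ t) : ramsey t = K0 (t - 1) + 1 := by
  obtain ⟨T, rfl⟩ : ∃ T, t = T + 1 := ⟨t - 1, by omega⟩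
  have h1 := (RAM T (by omega)).2.1
  have h2 : K0 T = ramsey (T + 1) - 1 := rfl
  rw [Nat.add_sub_cancel]
  omega

open Pool.Agent.helper67.GV in
theorem fgp_eq {k t : ℕ} (ht : 3 ≤ t) : fgpValue k t = fgp (t - 1) k + 1 := by
  unfold fgpValue fgp
  rw [ramsey_eq ht, Nat.add_sub_cancel]
  split_ifs <;> rfl

open Pool.Agent.helper67.GV in
/-- Let `t ≥ 3`. (1) The Gallai-Ramsey numbers exist. (2) `GR_k(K_t) - 1 ≤ g (t - 1) ^ k` for every weight function `g`. (3)
`(GR_k(K_t) - 1) ^ (1/k)` converges to `g (t - 1)` for some weight function `g`. (4) The formula of Fox, Grinshpun and Pach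
holds for all even `k` if and only if there is a weight function with `g (t - 1) ^ 2 = R_2(K_t) - 1`. (5) Either the formula
holds for all even `k` or `GR_k(K_t) - 1` exceeds the conjectured value minus 1 by a factor `c ^ k`, `c > 1`, for all large `k`
(even and odd). -/
theorem result (t : ℕ) (ht : 3 ≤ t) :
    (∀ k, 1 ≤ k → (gallaiSet k t).Nonempty) ∧
    (∀ g : ℕ → ℝ, IsWeight (t - 1) g → ∀ k, 1 ≤ k → (gallaiRamsey k t : ℝ) - 1 ≤ g (t - 1) ^ k) ∧
    (∃ g : ℕ → ℝ, IsWeight (t - 1) g ∧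
      Tendsto (fun k : ℕ => ((gallaiRamsey k t : ℝ) - 1) ^ ((1 : ℝ) / (k : ℝ))) atTop
        (𝓝 (g (t - 1)))) ∧
    ((∀ k, 1 ≤ k → Even k → gallaiRamsey k t = fgpValue k t) ↔
      ∃ g : ℕ → ℝ, IsWeight (t - 1) g ∧ g (t - 1) ^ 2 = (ramsey t : ℝ) - 1) ∧
    ((∀ k, 1 ≤ k → Even k → gallaiRamsey k t = fgpValue k t) ∨
      ∃ c : ℝ, 1 < c ∧ ∀ᶠ k : ℕ in atTop,
        c ^ k * ((fgpValue k t : ℝ) - 1) ≤ (gallaiRamsey k t : ℝ) - 1) := by
  have hT : 2 ≤ t - 1 := by omega
  have hGR : ∀ k, 1 ≤ k → (gallaiRamsey k t : ℝ) - 1 =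
      ((Fm (Multiset.replicate k (t - 1)) : ℕ) : ℝ) := by
    intro k hk
    rw [(gr_eq ht hk).2]
    push_cast
    ring
  have hR : (ramsey t : ℝ) - 1 = ((K0 (t - 1) : ℕ) : ℝ) := by
    rw [ramsey_eq ht]
    push_cast
    ring
  have heven : ∀ g : ℕ → ℝ, IsWeight (t - 1) g → g (t - 1) ^ 2 = ((K0 (t - 1) : ℕ) : ℝ) →
      ∀ k, 1 ≤ k → Even k → gallaiRamsey k t = fgpValue k t := by
    intro g hg hg2 k hk hke
    obtain ⟨m, rfl⟩ := hke
    rw [(gr_eq ht hk).2, fgp_eq ht, ← two_mul, Asm_EVN (t - 1) g hT hg hg2 m]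
    unfold fgp
    rw [if_pos (even_two_mul m), show 2 * m / 2 = m by omega]
  have hconv : ∃ g : ℕ → ℝ, IsWeight (t - 1) g ∧
      Tendsto (fun k : ℕ => ((Fm (Multiset.replicate k (t - 1)) : ℕ) : ℝ) ^ ((1 : ℝ) / (k : ℝ)))
        atTop (𝓝 (g (t - 1))) := Asm_LIM (t - 1) hT
  refine ⟨fun k hk => (gr_eq ht hk).1, ?_, ?_, ?_, ?_⟩
  · intro g hg k hk
    rw [hGR k hk]
    exact Asm_UPF (t - 1) g hT hg k hk
  · obtain ⟨g, hg, hlim⟩ := hconv
    refine ⟨g, hg, hlim.congr' ?_⟩
    filter_upwards [eventually_ge_atTop 1] with k hk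
    rw [hGR k hk]
  · constructor
    · intro hall
      obtain ⟨g, hg, hlim⟩ := hconv
      refine ⟨g, hg, ?_⟩
      rw [hR]
      by_contra hne
      obtain ⟨c, hc, hev⟩ := DIC RAM Asm_LOW (t - 1) hT _ hlim hne
      obtain ⟨N, hN⟩ := eventually_atTop.1 hev
      have h1 := hN (2 * (N + 1)) (by omega)
      have h2 := hall (2 * (N + 1)) (by omega) (even_two_mul _)
      rw [(gr_eq ht (by omega)).2, fgp_eq ht] at h2
      have h3 : Fm (Multiset.replicate (2 * (N + 1)) (t - 1)) = fgp (t - 1) (2 * (N + 1)) := by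
        omega
      rw [h3] at h1
      have h4 : (1 : ℝ) < c ^ (2 * (N + 1)) := one_lt_pow₀ hc (by omega)
      have h5 : (0 : ℝ) < ((fgp (t - 1) (2 * (N + 1)) : ℕ) : ℝ) := by
        have h6 := (RAM (t - 1) hT).2.1
        have h7 : 0 < fgp (t - 1) (2 * (N + 1)) := by
          unfold fgp
          rw [if_pos (even_two_mul _)]
          exact Nat.pow_pos h6
        exact_mod_cast h7
      nlinarith
    · rintro ⟨g, hg, hg2⟩
      rw [hR] at hg2
      exact heven g hg hg2
  · obtain ⟨g, hg, hlim⟩ := hconv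
    by_cases hne : g (t - 1) ^ 2 = ((K0 (t - 1) : ℕ) : ℝ)
    · exact Or.inl (heven g hg hne)
    · right
      obtain ⟨c, hc, hev⟩ := DIC RAM Asm_LOW (t - 1) hT _ hlim hne
      refine ⟨c, hc, ?_⟩
      filter_upwards [hev, eventually_ge_atTop 1] with k h1 hk
      rw [hGR k hk, fgp_eq ht]
      push_cast
      rw [add_sub_cancel_right]
      exact h1

end Pool.Agent.Results.MP_89787e_co.GrowthRate
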