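import Pool.Agent.helper6.RD.Main

/-!
# Gallai-Ramsey numbers of complete graphs and off-diagonal Ramsey numbers

New lower bounds for `GR_k(K_t)`, `k` odd, from off-diagonal Ramsey numbers, and the consequences of the formula of Fox, Grinshpun
and Pach for classical Ramsey numbers: if it holds at `t` for one odd `k ≥ 3` then `(R(s,t) - 1) / (s - 1) ≤ (R(t,t) - 1) / (t - 1)`
for `2 ≤ s ≤ t`, and if it holds at `t` for infinitely many `k` then `R(t,t) - R(t,s) ≥ √((R(t,t) - 1) (R(t-s+1,t-s+1) - 1))`.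
-/

set_option autoImplicit false

open Filter Topology

namespace Pool.Agent.Results.MP_89787e_co.RamseyDifferences

/-- The Ramsey number `R(s, t)`: the least `n` such that every two-colouring of the edges of `K_n` contains a `K_s` of colour `0`
or a `K_t` of colour `1`. So `R(t, t) = R_2(K_t)`. -/
noncomputable def R (s t : ℕ) : ℕ :=
  sInf {n : ℕ | ∀ f : Fin n → Fin n → Fin 2, (∀ a b : Fin n, f a b = f b a) →
    (∃ S : Finset (Fin n), S.card = s ∧ ∀ x ∈ S, ∀ y ∈ S, x ≠ y → f x y = 0) ∨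
    ∃ S : Finset (Fin n), S.card = t ∧ ∀ x ∈ S, ∀ y ∈ S, x ≠ y → f x y = 1}

/-- The set of all `n` such that every `k`-colouring of the edges of `K_n` without rainbow triangle
contains a monochromatic `K_t`. -/
def gallaiSet (k t : ℕ) : Set ℕ :=
  {n : ℕ | ∀ f : Fin n → Fin n → Fin k, (∀ a b : Fin n, f a b = f b a) →
    (∀ a b c : Fin n, a ≠ b → b ≠ c → a ≠ c → f a b = f b c ∨ f b c = f a c ∨ f a b = f a c) →
    ∃ S : Finset (Fin n), S.card = t ∧ ∃ i : Fin k, ∀ x ∈ S, ∀ y ∈ S, x ≠ y → f x y = i}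

/-- `GR_k(K_t)`: the least element of `gallaiSet k t`. -/
noncomputable def gallaiRamsey (k t : ℕ) : ℕ := sInf (gallaiSet k t)

/-- The value in the conjecture of Fox, Grinshpun and Pach. -/
noncomputable def fgpValue (k t : ℕ) : ℕ :=
  if Even k then (R t t - 1) ^ (k / 2) + 1 else (t - 1) * (R t t - 1) ^ ((k - 1) / 2) + 1

/-- A graph `r` on `n` vertices with weights `a v ≥ 1`: cliques have total weight at most `A`, independent sets have at most `B`
vertices. -/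
def IsStructure (n : ℕ) (r : Fin n → Fin n → Prop) (a : Fin n → ℕ) (A B : ℕ) : Prop :=
  (∀ u v, r u v → r v u) ∧ (∀ v, 1 ≤ a v) ∧
    (∀ Q : Finset (Fin n), (∀ u ∈ Q, ∀ v ∈ Q, u ≠ v → r u v) → ∑ v ∈ Q, a v ≤ A) ∧
    ∀ Q : Finset (Fin n), (∀ u ∈ Q, ∀ v ∈ Q, u ≠ v → ¬ r u v) → Q.card ≤ B

open Pool.Agent.helper67.GV in
theorem gr_eq {k T : ℕ} (hT : 2 ≤ T) (hk : 1 ≤ k) : (gallaiSet k (T + 1)).Nonempty ∧
    gallaiRamsey k (T + 1) = Fm (Multiset.replicate k T) + 1 := by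
  obtain ⟨h1, h2, -⟩ := Asm_GRC T k hT hk
  exact ⟨h1, h2⟩

open Pool.Agent.helper67.GV Pool.Agent.helper6.RD in
theorem R_diag (T : ℕ) : R (T + 1) (T + 1) - 1 = K0 T := rho_diag T

open Pool.Agent.helper67.GV Pool.Agent.helper6.RD in
theorem fgp_eq {k T : ℕ} : fgpValue k (T + 1) = fgp T k + 1 := by
  unfold fgpValue fgp
  rw [R_diag, Nat.add_sub_cancel]
  split_ifs <;> rfl

open Pool.Agent.helper67.GV Pool.Agent.helper6.RD in
/-- Let `t ≥ 3`. (0) All numbers are minima of nonempty sets. (1) Lower bounds for `GR_k(K_t)`, `k = 2 m + 3`, from graphs with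
weights, in particular from off-diagonal Ramsey numbers. (2) If the formula of Fox, Grinshpun and Pach holds for `(k, t)` with one
odd `k = 2 m + 3`, then the Ramsey numbers satisfy the stated inequalities. (3) The same if it holds for `(k, t)` with infinitely
many `k`. -/
theorem result (t : ℕ) (ht : 3 ≤ t) :
    ((∀ k, 1 ≤ k → (gallaiSet k t).Nonempty) ∧ ∀ s, 1 ≤ s → 1 ≤ R s t) ∧
    ((∀ (m n B : ℕ) (r : Fin n → Fin n → Prop) (a : Fin n → ℕ), B ≤ t - 1 → IsStructure n r a (t - 1) B →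
        (∑ v, (R (a v + 1) t - 1) + (t - 1 - B) * (R t t - 1)) * (R t t - 1) ^ m + 1 ≤
          gallaiRamsey (2 * m + 3) t) ∧
      ∀ m x B : ℕ, 1 ≤ x → x ≤ t - 1 → B ≤ t - 1 →
        ((R (x + 1) (B + 1) - 1) * (R ((t - 1) / x + 1) t - 1) + (t - 1 - B) * (R t t - 1)) *
          (R t t - 1) ^ m + 1 ≤ gallaiRamsey (2 * m + 3) t) ∧
    (∀ m : ℕ, gallaiRamsey (2 * m + 3) t = fgpValue (2 * m + 3) t →
      (∀ (n B : ℕ) (r : Fin n → Fin n → Prop) (a : Fin n → ℕ), B ≤ t - 1 → IsStructure n r a (t - 1) B →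
        ∑ v, (R (a v + 1) t - 1) ≤ B * (R t t - 1)) ∧
      (∀ x s : ℕ, 1 ≤ x → x ≤ t - 1 → 2 ≤ s → s ≤ t →
        (R (x + 1) s - 1) * (R ((t - 1) / x + 1) t - 1) ≤ (s - 1) * (R t t - 1)) ∧
      (∀ s : ℕ, 2 ≤ s → s ≤ t → (t - 1) * (R t s - 1) ≤ (s - 1) * (R t t - 1)) ∧
      ((R t t : ℝ) - 1) / ((t : ℝ) - 1) ≤ (R t t : ℝ) - R t (t - 1)) ∧
    ((∃ᶠ k : ℕ in atTop, gallaiRamsey k t = fgpValue k t) → ∀ s : ℕ, 2 ≤ s → s < t →
      (R t s : ℝ) + Real.sqrt (((R t t : ℝ) - 1) * ((R (t - s + 1) (t - s + 1) : ℝ) - 1)) ≤ R t t) := by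
  obtain ⟨T, rfl⟩ : ∃ T, t = T + 1 := ⟨t - 1, by omega⟩
  have hT : 2 ≤ T := by omega
  simp only [Nat.add_sub_cancel]
  have hGR : ∀ m, gallaiRamsey (2 * m + 3) (T + 1) = Fm (Multiset.replicate (2 * m + 3) T) + 1 :=
    fun m => (gr_eq hT (by omega)).2
  have hpos : ∀ s t : ℕ, 1 ≤ s → 1 ≤ t → 1 ≤ R s t := fun s t hs ht => OSet_pos s t hs ht
  have hL : ∀ (m n B : ℕ) (r : Fin n → Fin n → Prop) (a : Fin n → ℕ), B ≤ T → IsStructure n r a T B →
      (∑ v, (R (a v + 1) (T + 1) - 1) + (T - B) * (R (T + 1) (T + 1) - 1)) *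
        (R (T + 1) (T + 1) - 1) ^ m ≤ Fm (Multiset.replicate (2 * m + 3) T) := by
    rintro m n B r a hB ⟨h1, h2, h3, h4⟩
    have h := lowerW T m B n hT hB r a h1 h2 (fun Q _ hQ => h3 Q hQ)
      (fun Q _ hQ => by rw [Finset.sum_const, smul_eq_mul, mul_one]; exact h4 Q hQ)
    rw [R_diag]
    exact h
  have hL2 : ∀ m x B : ℕ, 1 ≤ x → x ≤ T → B ≤ T →
      ((R (x + 1) (B + 1) - 1) * (R (T / x + 1) (T + 1) - 1) + (T - B) * (R (T + 1) (T + 1) - 1)) *
        (R (T + 1) (T + 1) - 1) ^ m ≤ Fm (Multiset.replicate (2 * m + 3) T) := by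
    intro m x B hx hxT hB
    rw [R_diag]
    exact lower T m x B hT hx hxT hB
  refine ⟨⟨fun k hk => (gr_eq hT hk).1, fun s hs => hpos s _ hs (by omega)⟩, ⟨?_, ?_⟩, ?_, ?_⟩
  · intro m n B r a hB h
    rw [hGR]
    exact Nat.succ_le_succ (hL m n B r a hB h)
  · intro m x B hx hxT hB
    rw [hGR]
    exact Nat.succ_le_succ (hL2 m x B hx hxT hB)
  · intro m hm
    have hF : Fm (Multiset.replicate (2 * m + 3) T) = T * K0 T ^ (m + 1) := by
      rw [hGR, fgp_eq] at hm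
      have h1 : fgp T (2 * m + 3) = T * K0 T ^ (m + 1) := by
        unfold fgp
        rw [if_neg (by rw [Nat.not_even_iff_odd]; exact ⟨m + 1, by ring⟩),
          show (2 * m + 3 - 1) / 2 = m + 1 by omega]
      omega
    have h2 : ∀ x s : ℕ, 1 ≤ x → x ≤ T → 2 ≤ s → s ≤ T + 1 →
        (R (x + 1) s - 1) * (R (T / x + 1) (T + 1) - 1) ≤ (s - 1) * (R (T + 1) (T + 1) - 1) := by
      intro x s hx hxT hs hsT
      obtain ⟨B, rfl⟩ : ∃ B, s = B + 1 := ⟨s - 1, by omega⟩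
      have h := hL2 m x B hx hxT (by omega)
      rw [hF, R_diag] at h
      rw [R_diag, Nat.add_sub_cancel]
      exact cancel T m B _ hT (by omega) h
    have h3 : ∀ s : ℕ, 2 ≤ s → s ≤ T + 1 →
        T * (R (T + 1) s - 1) ≤ (s - 1) * (R (T + 1) (T + 1) - 1) := by
      intro s hs hsT
      have h := h2 T s (by omega) le_rfl hs hsT
      have h4 : R 2 (T + 1) = T + 1 := OSet_two (T + 1)
      rw [Nat.div_self (by omega), show 1 + 1 = 2 from rfl, h4, Nat.add_sub_cancel] at h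
      rw [mul_comm]
      exact h
    refine ⟨?_, h2, h3, ?_⟩
    · intro n B r a hB h
      have h5 := hL m n B r a hB h
      rw [hF, R_diag] at h5
      rw [R_diag]
      exact cancel T m B _ hT hB h5
    · have h := h3 T hT (by omega)
      have h1 := hpos (T + 1) T (by omega) (by omega)
      have h2' := hpos (T + 1) (T + 1) (by omega) (by omega)
      obtain ⟨p, hp⟩ : ∃ p, R (T + 1) T = p + 1 := ⟨R (T + 1) T - 1, by omega⟩
      obtain ⟨q, hq⟩ : ∃ q, R (T + 1) (T + 1) = q + 1 := ⟨R (T + 1) (T + 1) - 1, by omega⟩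
      obtain ⟨T', rfl⟩ : ∃ T', T = T' + 1 := ⟨T - 1, by omega⟩
      rw [hp, hq] at h ⊢
      simp only [Nat.add_sub_cancel] at h
      have h' : (((T' + 1) * p : ℕ) : ℝ) ≤ ((T' * q : ℕ) : ℝ) := by exact_mod_cast h
      push_cast at h' ⊢
      have hT' : (0 : ℝ) < (T' : ℝ) + 1 := by positivity
      rw [show (T' : ℝ) + 1 + 1 - 1 = T' + 1 by ring, div_le_iff₀ hT']
      nlinarith
  · intro hfr s hs hst
    have hB : 1 ≤ T + 1 - s := by omega
    have h := freq_cons T (T + 1 - s) hT hB (by omega) ?_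
    · have e1 : rho T (T - (T + 1 - s)) = R (T + 1) s - 1 := by
        have : T - (T + 1 - s) + 1 = s := by omega
        unfold rho
        rw [this]
        rfl
      have e2 : rho (T + 1 - s) (T + 1 - s) = R (T + 1 - s + 1) (T + 1 - s + 1) - 1 := rfl
      rw [e1, e2, ← R_diag] at h
      have p1 := hpos (T + 1) s (by omega) (by omega)
      have p2 := hpos (T + 1) (T + 1) (by omega) (by omega)
      have p3 := hpos (T + 1 - s + 1) (T + 1 - s + 1) (by omega) (by omega)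
      rw [Nat.cast_sub p1, Nat.cast_sub p2, Nat.cast_sub p3, Nat.cast_one] at h
      linarith
    · refine (hfr.and_eventually (eventually_ge_atTop 1)).mono ?_
      rintro k ⟨hk, hk1⟩
      rw [(gr_eq hT hk1).2, fgp_eq] at hk
      omega

end Pool.Agent.Results.MP_89787e_co.RamseyDifferences
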